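import Mathlib
import Pool.Agent.Helper406.ToepGD

set_option autoImplicit false
open MeasureTheory AddCircle Filter Topology

namespace Pool.Agent.Results.MP_e9aa5f_an.GDAlgebra

/-- `f` is (a representative of) a function in `H^∞`: bounded, no negative Fourier coefficients. -/
def HInf (f : UnitAddCircle → ℂ) : Prop :=
  AEStronglyMeasurable f haarAddCircle ∧ eLpNorm f ⊤ haarAddCircle < ⊤ ∧
    ∀ n : ℤ, n < 0 → fourierCoeff f n = 0

/-- `‖P₊(f p)‖_∞ ≤ C ‖p‖_∞` for every analytic polynomial `p`. The function `g` below has the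
Fourier coefficients of `P₊(f p)`; on the circle `p` is `t ↦ p(e^{2πit})` and `fourier 1 t` is
`e^{2πit}`. -/
def STBound (f : UnitAddCircle → ℂ) (C : ℝ) : Prop :=
  ∀ p : Polynomial ℂ, ∃ g : UnitAddCircle → ℂ, AEStronglyMeasurable g haarAddCircle ∧
    eLpNorm g ⊤ haarAddCircle ≤
      ENNReal.ofReal C * eLpNorm (fun t : UnitAddCircle => p.eval (fourier 1 t)) ⊤ haarAddCircle ∧
    ∀ n : ℤ, fourierCoeff g n =
      if 0 ≤ n then fourierCoeff (fun t : UnitAddCircle => f t * p.eval (fourier 1 t)) n else 0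

/-- `f ∈ ST(H^∞)`: `f ∈ L^∞` and `‖P₊(f p)‖_∞ ≤ C ‖p‖_∞` for some constant `C`. -/
def ST (f : UnitAddCircle → ℂ) : Prop :=
  AEStronglyMeasurable f haarAddCircle ∧ eLpNorm f ⊤ haarAddCircle < ⊤ ∧
    ∃ C : ℝ, 0 ≤ C ∧ STBound f C

/-- The norm of `ST(H^∞)`, the least constant. -/
noncomputable def stNorm (f : UnitAddCircle → ℂ) : ℝ := sInf {C : ℝ | 0 ≤ C ∧ STBound f C}

/-- `X` is (the set of representatives of) a generalized Douglas algebra. -/
structure IsGDAlgebra (X : (UnitAddCircle → ℂ) → Prop) : Prop where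
  bounded : ∀ f, X f → AEStronglyMeasurable f haarAddCircle ∧ eLpNorm f ⊤ haarAddCircle < ⊤
  congr_ae : ∀ f g, X f → f =ᵐ[haarAddCircle] g → X g
  hInf_mem : ∀ f, HInf f → X f
  add_mem : ∀ f g, X f → X g → X (fun t => f t + g t)
  mul_mem : ∀ f g, X f → X g → X (fun t => f t * g t)
  inv_mem : ∀ f, X f → eLpNorm f ⊤ haarAddCircle < 1 → X (fun t => 1 / (1 - f t))

/-- **`ST(H^∞)` is a generalized Douglas algebra, and the spectral radius of each of its elements
is the `L^∞` norm.** -/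
theorem result :
    IsGDAlgebra ST ∧
    ∀ f, ST f → Tendsto (fun n : ℕ => stNorm (fun t => f t ^ n) ^ (1 / (n : ℝ))) atTop
      (𝓝 (eLpNorm f ⊤ haarAddCircle).toReal) :=
  ⟨{ bounded := fun _ hf => ⟨hf.1, hf.2.1⟩
     congr_ae := fun _ _ hf h => Pool.Agent.Helper406.Toep.ST_congr hf h
     hInf_mem := fun _ hf => Pool.Agent.Helper406.Toep.ST_Hinf hf.1 hf.2.1 hf.2.2
     add_mem := fun _ _ hf hg => Pool.Agent.Helper406.Toep.ST_add hf hg
     mul_mem := fun _ _ hf hg => Pool.Agent.Helper406.Toep.ST_mul hf hg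
     inv_mem := fun _ hf h => Pool.Agent.Helper406.Toep.ST_inv hf h },
   fun _ hf => Pool.Agent.Helper406.Toep.ST_radius hf⟩

end Pool.Agent.Results.MP_e9aa5f_an.GDAlgebra
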